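import Pool.Agent.D0H17.MW2.Num

set_option autoImplicit false

/-!
Waring's problem with some powers of positive integers and some powers of positive integers shifted by a fixed
vector: all shift vectors, outside a set of Hausdorff dimension smaller than the number of shifts. Each shifted
power beyond the first block squares the density of the exceptional set, so that `k + 2 + ⌊log₂ k⌋` shifted
powers suffice, and with `4k` summands only about `k / 50` of them need a shift.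
-/

namespace Pool.Agent.Results.MP_ee77ae_nt.FewShifts

open scoped ENNReal

/-- `Covers k t m θ`: for every `η > 0`, every sufficiently large real number `τ` is within `η` of a sum
`x_1 ^ k + … + x_t ^ k + (y_1 + θ_1) ^ k + … + (y_m + θ_m) ^ k` with positive integers `x_i` and `y_j`. -/
def Covers (k t m : ℕ) (θ : Fin m → ℝ) : Prop :=
  ∀ η : ℝ, 0 < η → ∃ τ₀ : ℝ, ∀ τ : ℝ, τ₀ ≤ τ → ∃ (x : Fin t → ℕ) (y : Fin m → ℕ),
    (∀ i, 1 ≤ x i) ∧ (∀ j, 1 ≤ y j) ∧ |∑ i, (x i : ℝ) ^ k + ∑ j, ((y j : ℝ) + θ j) ^ k - τ| < η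

theorem result :
    (∀ k t₁ t₂ m J : ℕ, 2 ≤ k → 2 ≤ m →
      (k : ℝ) * (1 - 1 / (k : ℝ)) ^ t₂ < 2 ^ J * ((m : ℝ) - (k : ℝ) * (1 - 1 / (k : ℝ)) ^ t₁) →
      (k : ℝ) * (1 - 1 / (k : ℝ)) ^ t₂ < 2 ^ J * ((m : ℝ) - 2 + 1 / (m : ℝ)) →
      dimH {θ : Fin (m + J) → ℝ | ¬ Covers k (t₁ + t₂) (m + J) θ} < ((m + J : ℕ) : ℝ≥0∞)) ∧
    (∀ k t m : ℕ, 2 ≤ k → 4 + Nat.log 2 k ≤ m →
      (k : ℝ) * (1 - 1 / (k : ℝ)) ^ t + 2 + (Nat.log 2 k : ℝ) ≤ (m : ℝ) →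
      dimH {θ : Fin m → ℝ | ¬ Covers k t m θ} < (m : ℝ≥0∞)) ∧
    (∀ k m t : ℕ, 6 ≤ k → m = min (k / 3 + 2) (k / 50 + Nat.log 2 k + 4) → t + m = 4 * k →
      dimH {θ : Fin m → ℝ | ¬ Covers k t m θ} < (m : ℝ≥0∞) ∧
      dimH {θ : Fin m → ℝ | ¬ ∃ n₀ : ℕ, ∀ n : ℕ, n₀ ≤ n → ∃ (x : Fin t → ℕ) (y : Fin m → ℕ),
        (∀ i, 1 ≤ x i) ∧ (∀ j, 1 ≤ y j) ∧
          (n : ℤ) = ∑ i, (x i : ℤ) ^ k + ⌊∑ j, ((y j : ℝ) + θ j) ^ k⌋} < (m : ℝ≥0∞)) := by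
  refine ⟨fun k t₁ t₂ m J hk hm h1 h2 => D0H17.MW2.general2 k t₁ t₂ m J hk hm h1 h2,
    fun k t m hk h1 h2 => D0H17.MW2.oneblock k t m hk h1 h2, fun k m t hk hm ht => ?_⟩
  have h := D0H17.MW2.fourk2 k m t hk hm ht
  refine ⟨h, lt_of_le_of_lt (dimH_mono ?_) h⟩
  intro θ hθ hc
  exact hθ (D0H17.MW.Cov.floor hc)

end Pool.Agent.Results.MP_ee77ae_nt.FewShifts
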