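import Pool.Agent.D0H17.GE.NumE

/-!
# Waring's problem with a generic real exponent

For all real exponents `c > 1` outside a set of Hausdorff dimension `< 1`, every large real number is
arbitrarily close to a sum of `⌊4 c⌋` (for large `c` even of `3 ⌈1.1 c⌉`) `c`-th powers of positive
integers, and every large integer is the integer part of such a sum.  The question is the last
statement for integers `c = k`, `s = 4 k`.

Method.  The variables `x_1, x_2, ...` of a block run over intervals of lengths `p_0 = 2 ^ j`,
`p_{i+1} = K p_i ^ (1 - 1 / β)`, where `β` is an anchor with `c - β ≍ 1 / j` (diminishing ranges).  There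
are three blocks: a wide one, whose sums meet every interval of length `g ≍ p_t ^ (c - 1)`, and two thin
ones, whose sums are separated.  If some `τ` is at distance `> 3 ρ` from all sums, then the second
moment in `τ` of the fine count (window `ρ`) minus the coarse count (window `g`) of the sums of the
first two blocks is large, and it stays large for the exponents at distance `≤ 2 ^ (-j c)`, up to a
power of `j`.  The integral of this second moment over the exponents is small: for a pair of distinct
sums one integrates by parts in the exponent, since the derivative with respect to the exponent of the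
difference of two close sums is bounded below (transversality), and the terms are controlled by
`∑ 1 / |S(v) - S(v')|` over the separated sums of the thin block.  This gives a power saving for the
measure, and so for the number of the cells of length `2 ^ (-j c)` which contain a bad exponent at the
scale `j`; the Hausdorff-Cantelli lemma gives the dimension.
-/

set_option autoImplicit false

namespace Pool.Agent.Results.MP_ee77ae_nt.GenericExponent

/-- Every large real number is arbitrarily close to a sum of `s` `c`-th powers of positive integers. -/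
def Covers (s : ℕ) (c : ℝ) : Prop :=
  ∀ η : ℝ, 0 < η → ∃ τ₀ : ℝ, ∀ τ : ℝ, τ₀ ≤ τ →
    ∃ x : Fin s → ℕ, (∀ i, 1 ≤ x i) ∧ |∑ i, (x i : ℝ) ^ c - τ| < η

/-- (1) For `b > 1` and integers `t, t' ≥ 1`, the set of the exponents `c ∈ (1, b]` for which `2 t + t'`
summands do not suffice has Hausdorff dimension at most `2 (1 - 1/b) ^ t + (1 - 1/b) ^ t'`.
(2) Outside one set `E` of dimension `< 1` all exponents `c > 1` have the property that `s` summands
suffice for all `s ≥ ⌊4 c⌋` and all `s ≥ 3 ⌈11 c / 10⌉`, and then every large integer `n` is the integer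
part of a sum of `s` `c`-th powers of positive integers. -/
theorem result :
    (∀ (b : ℝ) (t t' : ℕ), 1 < b → 1 ≤ t → 1 ≤ t' →
      dimH {c : ℝ | 1 < c ∧ c ≤ b ∧ ¬ Covers (2 * t + t') c} ≤
        ENNReal.ofReal (2 * (1 - 1 / b) ^ t + (1 - 1 / b) ^ t')) ∧
    ∃ E : Set ℝ, dimH E < 1 ∧ ∀ c : ℝ, 1 < c → c ∉ E →
      ∀ s : ℕ, (⌊4 * c⌋₊ ≤ s ∨ 3 * ⌈11 * c / 10⌉₊ ≤ s) →
        Covers s c ∧
        ∃ n₀ : ℕ, ∀ n : ℕ, n₀ ≤ n →
          ∃ x : Fin s → ℕ, (∀ i, 1 ≤ x i) ∧ n = ⌊∑ i, (x i : ℝ) ^ c⌋₊ := by
  refine ⟨fun b t t' hb ht ht' => Pool.Agent.D0H17.GE.finE b t t' hb ht ht',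
    Pool.Agent.D0H17.GE.EX, Pool.Agent.D0H17.GE.EX_lt, fun c hc hE s hs => ?_⟩
  have h : Pool.Agent.D0H17.GE.CovE s c := by
    by_contra h
    exact hE ⟨hc, s, hs, h⟩
  exact ⟨h, h.floor⟩

end Pool.Agent.Results.MP_ee77ae_nt.GenericExponent
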