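import Pool.Agent.D0H17.MR.NumR

set_option autoImplicit false

/-!
Waring's problem with one generic real ratio: sums of `a` positive `k`-th powers and of `c` times `b` positive
`k`-th powers. For all `c > 0` outside a set of Hausdorff dimension at most `e₁ + e₂ + e₃`, where
`e_i = (1 - 1 / k) ^ t_i`, the gaps between these sums tend to zero, when `(a, b)` is `(t₁ + t₃, t₂)` or
`(t₁, t₂ + t₃)`. In particular `4k` summands suffice, for one and the same set of `c` and all `k`.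
-/

namespace Pool.Agent.Results.MP_ee77ae_nt.GenericRatio

open scoped ENNReal

/-- `Covers k a b c`: for every `η > 0`, every sufficiently large real number `τ` is within `η` of a sum
`x_1 ^ k + … + x_a ^ k + c (y_1 ^ k + … + y_b ^ k)` with positive integers `x_i` and `y_j`. -/
def Covers (k a b : ℕ) (c : ℝ) : Prop :=
  ∀ η : ℝ, 0 < η → ∃ τ₀ : ℝ, ∀ τ : ℝ, τ₀ ≤ τ → ∃ (x : Fin a → ℕ) (y : Fin b → ℕ),
    (∀ i, 1 ≤ x i) ∧ (∀ j, 1 ≤ y j) ∧ |∑ i, (x i : ℝ) ^ k + c * ∑ j, (y j : ℝ) ^ k - τ| < η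

theorem result :
    -- the general theorem
    (∀ k t₁ t₂ t₃ a b : ℕ, 2 ≤ k → (a = t₁ + t₃ ∧ b = t₂) ∨ (a = t₁ ∧ b = t₂ + t₃) →
      dimH {c : ℝ | 0 < c ∧ ¬ Covers k a b c} ≤
        ENNReal.ofReal ((1 - 1 / (k : ℝ)) ^ t₁ + (1 - 1 / (k : ℝ)) ^ t₂ + (1 - 1 / (k : ℝ)) ^ t₃)) ∧
    -- `4k` summands, all `k` at the same time
    (∃ E : Set ℝ, dimH E ≤ ENNReal.ofReal 0.97 ∧ ∀ c : ℝ, 0 < c → c ∉ E → ∀ k a b : ℕ, 2 ≤ k → a + b = 4 * k →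
      k ≤ 2 * a → k ≤ 2 * b → Covers k a b c ∧ ∃ n₀ : ℕ, ∀ n : ℕ, n₀ ≤ n → ∃ (x : Fin a → ℕ) (y : Fin b → ℕ),
        (∀ i, 1 ≤ x i) ∧ (∀ j, 1 ≤ y j) ∧ (n : ℤ) = ∑ i, (x i : ℤ) ^ k + ⌊c * ∑ j, (y j : ℝ) ^ k⌋) ∧
    -- `3t` summands with `t ≥ 1.1 k`, all `k` and `t` at the same time
    (∃ E : Set ℝ, dimH E < 1 ∧ ∀ c : ℝ, 0 < c → c ∉ E → ∀ k t : ℕ, 2 ≤ k → 11 * k ≤ 10 * t →
      Covers k (2 * t) t c ∧ Covers k t (2 * t) c) := by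
  refine ⟨fun k t₁ t₂ t₃ a b hk h => ?_, ⟨_, D0H17.MR.four_k, fun c hc hE k a b hk hab ha hb => ?_⟩,
    ⟨_, D0H17.MR.three_t, fun c hc hE k t hk ht => ?_⟩⟩
  · rcases h with ⟨rfl, rfl⟩ | ⟨rfl, rfl⟩
    · exact D0H17.MR.generalE k t₁ b t₃ hk
    · exact D0H17.MR.generalD k a t₂ t₃ hk
  · have h : D0H17.MR.Cov2 k a b c := by
      by_contra hcon
      exact hE ⟨hc, k, a, b, hk, hab, ha, hb, hcon⟩
    exact ⟨h, D0H17.MR.Cov2.floor h⟩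
  · by_contra hcon
    exact hE ⟨hc, k, t, hk, ht, hcon⟩

end Pool.Agent.Results.MP_ee77ae_nt.GenericRatio
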