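import Pool.Agent.D0H17.SH.NumS

/-!
# Waring's problem with one generic shift

For all real `θ` outside one set of Hausdorff dimension `< 1`, and for all `k ≥ 2`, every large real
number is arbitrarily close to a sum of `4 k` (for large `k` even of `3.3 k + 5.7`) numbers
`(x + θ) ^ k` with positive integers `x`, and every large integer is the integer part of such a sum.
The question is the last statement for `θ = 0`, `s = 4 k`.

Method.  There are three blocks of variables, the `i`-th variable of a block being of the order of
`p_i`, where `p_0 = 2 ^ j`, `p_{i+1} = K p_i ^ (1 - 1/k)` (diminishing ranges).  The sums of the first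
block meet every interval of length `g ≍ p_t ^ (k-1)`; in the second block the `i`-th variable is a
multiple of an integer `≍ p_i / p_{i+1}`, so that already the sums of the `(k-1)`-st powers are
separated; the sums of the third block are separated.  If some `τ` is at distance `> 3 ρ` from all
sums, then the second moment in `τ` of the fine count (window `ρ`) minus the coarse count (window
`g`) of the sums of the first two blocks is large for all shifts near `θ`.  Its integral over the shifts
is small: for two distinct tuples whose sums are close, the derivative of the difference with respect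
to the shift, `k` times a difference of sums of `(k-1)`-st powers, is bounded below by the corresponding
difference for the second block (transversality); one integrates by parts and uses a harmonic
sum over the separated values.  The Hausdorff-Cantelli lemma gives the dimension.
-/

set_option autoImplicit false

namespace Pool.Agent.Results.MP_ee77ae_nt.OneShift

/-- Every large real number is arbitrarily close to a sum of `s` numbers `(x + θ) ^ k`, `x ≥ 1` integers. -/
def Covers (k s : ℕ) (θ : ℝ) : Prop :=
  ∀ η : ℝ, 0 < η → ∃ τ₀ : ℝ, ∀ τ : ℝ, τ₀ ≤ τ →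
    ∃ x : Fin s → ℕ, (∀ i, 1 ≤ x i) ∧ |∑ i, ((x i : ℝ) + θ) ^ k - τ| < η

/-- (1) For `k ≥ 2` and `m, d ≥ 0` the set of the shifts `θ` for which `2 m + d + 3` summands do not
suffice has Hausdorff dimension at most `(1 - 1/k) ^ m + (1 - 1/k) ^ (m + 1) + (1 - 1/k) ^ d`.
(2) Outside one set `E` of dimension `< 1` all shifts have the property that, for all `k ≥ 2`, `s` summands
suffice for all `s ≥ 4 k` and all `s ≥ 3.3 k + 5.7`, and then every large integer `n` is the integer part of
a sum of `s` numbers `(x + θ) ^ k` with positive integers `x`. -/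
theorem result :
    (∀ k m d : ℕ, 2 ≤ k → dimH {θ : ℝ | ¬ Covers k (2 * m + d + 3) θ} ≤
      ENNReal.ofReal ((1 - 1 / (k : ℝ)) ^ m + (1 - 1 / (k : ℝ)) ^ (m + 1) + (1 - 1 / (k : ℝ)) ^ d)) ∧
    ∃ E : Set ℝ, dimH E < 1 ∧ ∀ θ : ℝ, θ ∉ E →
      ∀ k s : ℕ, 2 ≤ k → (4 * k ≤ s ∨ 33 * k + 57 ≤ 10 * s) →
        Covers k s θ ∧
        ∃ n₀ : ℕ, ∀ n : ℕ, n₀ ≤ n →
          ∃ x : Fin s → ℕ, (∀ i, 1 ≤ x i) ∧ n = ⌊∑ i, ((x i : ℝ) + θ) ^ k⌋₊ := by
  refine ⟨fun k m d hk => ?_, Pool.Agent.D0H17.SH.EXS, Pool.Agent.D0H17.SH.EXS_lt, fun θ hE k s hk hs => ?_⟩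
  · have h := Pool.Agent.D0H17.SH.finS k (m + 1) d hk (by omega)
    rw [show 2 * (m + 1) + d + 1 = 2 * m + d + 3 by ring, Nat.add_sub_cancel] at h
    exact h
  · have h : Pool.Agent.D0H17.SH.CovS k s θ := by
      by_contra h
      exact hE ⟨k, s, hk, hs, h⟩
    exact ⟨h, h.floor⟩

end Pool.Agent.Results.MP_ee77ae_nt.OneShift
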